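import Mathlib.Topology.MetricSpace.PiNat
import Mathlib.Topology.Baire.Lemmas
import Mathlib.Topology.Baire.LocallyCompactRegular

set_option autoImplicit false

/-!
Baire category on the Cantor space, in the form used for `MP_a0fd22_al`.
-/

namespace Pool.Agent.Lib_helper7.FSBaire

open Set

theorem baire_pairs (E : ℕ → Set (ℕ → Bool)) (h : ∀ eps, ∃ N, eps ∈ E N) :
    ∃ N M, ∀ n ≥ M, ∃ eps ∈ E N, ∃ eps' ∈ E N, (∀ i < n, eps i = eps' i) ∧
      eps n = true ∧ eps' n = false := by
  obtain ⟨N, a, ha⟩ : ∃ N, (interior (closure (E N))).Nonempty := by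
    refine nonempty_interior_of_iUnion_of_closed (fun N => isClosed_closure) ?_
    refine eq_univ_of_forall fun eps => ?_
    obtain ⟨N, hN⟩ := h eps
    exact mem_iUnion.2 ⟨N, subset_closure hN⟩
  obtain ⟨v, ⟨x, M, rfl⟩, hav, hv⟩ :=
    (PiNat.isTopologicalBasis_cylinders (fun _ : ℕ => Bool)).exists_subset_of_mem_open ha
      isOpen_interior
  refine ⟨N, M, fun n hn => ?_⟩
  have key : ∀ b : Bool, ∃ eps ∈ E N, (∀ i < n, eps i = a i) ∧ eps n = b := by
    intro b
    have hmem : Function.update a n b ∈ closure (E N) := by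
      apply interior_subset
      apply hv
      rw [PiNat.mem_cylinder_iff] at hav ⊢
      intro i hi
      rw [Function.update_of_ne (by omega)]
      exact hav i hi
    obtain ⟨eps, he, hE⟩ := mem_closure_iff.1 hmem _
      (PiNat.isOpen_cylinder (fun _ : ℕ => Bool) (Function.update a n b) (n + 1))
      (PiNat.self_mem_cylinder _ _)
    rw [PiNat.mem_cylinder_iff] at he
    refine ⟨eps, hE, fun i hi => ?_, ?_⟩
    · rw [he i (by omega), Function.update_of_ne (by omega)]
    · rw [he n (by omega), Function.update_self]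
  obtain ⟨eps, hE, h1, h2⟩ := key true
  obtain ⟨eps', hE', h1', h2'⟩ := key false
  exact ⟨eps, hE, eps', hE', fun i hi => (h1 i hi).trans (h1' i hi).symm, h2, h2'⟩

end Pool.Agent.Lib_helper7.FSBaire
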