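import Mathlib

/-!
A criterion for a local domain to be Noetherian of dimension two (module A for MP_a0fd22_al).
-/

set_option autoImplicit false

namespace Pool.Agent.Lib_helper7

open Ideal

variable {R : Type*} [CommRing R] [IsDomain R] [IsLocalRing R]

section
variable {x y : R}

omit [IsDomain R] in
/-- A nonunit lies in the ideal generated by `x` and `y`. -/
theorem FSDim.mem_span (hy : Prime y)
    (h1 : ∀ f : R, y ∣ f ∨ ∃ v : ℕ, ∃ u : R, IsUnit u ∧ y ∣ f - x ^ v * u)
    {f : R} (hf : ¬ IsUnit f) : f ∈ Ideal.span ({x, y} : Set R) := by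
  have hxm : x ∈ Ideal.span ({x, y} : Set R) := Ideal.subset_span (by simp)
  have hym : y ∈ Ideal.span ({x, y} : Set R) := Ideal.subset_span (by simp)
  rcases h1 f with h | ⟨v, u, hu, h⟩
  · obtain ⟨c, rfl⟩ := h
    exact Ideal.mul_mem_right _ _ hym
  · obtain ⟨c, hc⟩ := h
    have hfe : f = x ^ v * u + y * c := by rw [← hc]; ring
    rcases Nat.eq_zero_or_pos v with hv | hv
    · exfalso
      apply hf
      have hyc : ¬ IsUnit (y * c) := fun hh => hy.not_isUnit (isUnit_of_mul_isUnit_left hh)
      by_contra hfn
      apply (IsLocalRing.nonunits_add (a := f) (b := -(y * c)) hfn ?_)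
      · have : f + -(y * c) = u := by rw [hfe, hv]; ring
        rw [this]
        exact hu
      · show ¬ IsUnit (-(y * c))
        rwa [IsUnit.neg_iff]
    · rw [hfe]
      refine Ideal.add_mem _ ?_ (Ideal.mul_mem_right _ _ hym)
      obtain ⟨w, rfl⟩ := Nat.exists_eq_succ_of_ne_zero hv.ne'
      rw [pow_succ]
      have : x ^ w * x * u = x * (x ^ w * u) := by ring
      rw [this]
      exact Ideal.mul_mem_right _ _ hxm

omit [IsDomain R] in
theorem FSDim.span_eq (hy : Prime y) (hx : ¬ IsUnit x)
    (h1 : ∀ f : R, y ∣ f ∨ ∃ v : ℕ, ∃ u : R, IsUnit u ∧ y ∣ f - x ^ v * u) :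
    Ideal.span ({x, y} : Set R) = IsLocalRing.maximalIdeal R := by
  apply le_antisymm
  · rw [Ideal.span_le]
    intro z hz
    rcases hz with rfl | hz
    · exact hx
    · rw [Set.mem_singleton_iff.mp hz]
      exact hy.not_isUnit
  · intro f hf
    exact FSDim.mem_span hy h1 hf

omit [IsDomain R] in
theorem FSDim.fg_of_prime (hy : Prime y) (hx : ¬ IsUnit x)
    (h1 : ∀ f : R, y ∣ f ∨ ∃ v : ℕ, ∃ u : R, IsUnit u ∧ y ∣ f - x ^ v * u)
    (h2 : ∀ f g : R, ¬ y ∣ g → (∀ N : ℕ, ∃ a, y ^ N ∣ f - g * a) → g ∣ f)
    (h3 : ∀ f : R, f ≠ 0 → ∃ N : ℕ, ¬ y ^ N ∣ f)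
    (Q : Ideal R) (hQ : Q.IsPrime) : Q.FG := by
  classical
  by_cases hyQ : y ∈ Q
  · by_cases hall : ∀ f ∈ Q, y ∣ f
    · have : Q = Ideal.span {y} := by
        apply le_antisymm
        · intro f hf
          rw [Ideal.mem_span_singleton]
          exact hall f hf
        · rw [Ideal.span_le]
          intro z hz
          rw [Set.mem_singleton_iff.mp hz]
          exact hyQ
      rw [this]
      exact ⟨{y}, by simp⟩
    · push Not at hall
      obtain ⟨f, hfQ, hyf⟩ := hall
      rcases h1 f with h | ⟨v, u, hu, h⟩
      · exact absurd h hyf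
      · have h5 : x ^ v * u ∈ Q := by
          obtain ⟨c, hc⟩ := h
          have : x ^ v * u = f - y * c := by rw [← hc]; ring
          rw [this]
          exact Q.sub_mem hfQ (Q.mul_mem_right _ hyQ)
        have h6 : x ^ v ∈ Q := by
          rcases hQ.mem_or_mem h5 with h | h
          · exact h
          · exact absurd (Q.eq_top_of_isUnit_mem h hu) hQ.ne_top
        have hxQ : x ∈ Q := hQ.mem_of_pow_mem _ h6
        have : Q = Ideal.span ({x, y} : Set R) := by
          apply le_antisymm
          · intro g hg
            apply FSDim.mem_span hy h1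
            intro hgu
            exact hQ.ne_top (Q.eq_top_of_isUnit_mem hg hgu)
          · rw [Ideal.span_le]
            intro z hz
            rcases hz with rfl | hz
            · exact hxQ
            · rw [Set.mem_singleton_iff.mp hz]
              exact hyQ
        rw [this]
        exact ⟨{x, y}, by simp⟩
  · by_cases hQ0 : Q = ⊥
    · rw [hQ0]; exact Submodule.fg_bot
    · -- there is an element of `Q` outside `yR`
      obtain ⟨f0, hf0Q, hf0⟩ := Submodule.exists_mem_ne_zero_of_ne_bot hQ0
      have hex : ∃ f ∈ Q, ¬ y ∣ f := by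
        obtain ⟨N, hN⟩ := h3 f0 hf0
        clear hf0
        induction N generalizing f0 with
        | zero => simp at hN
        | succ N ih =>
          by_cases hd : y ∣ f0
          · obtain ⟨g, rfl⟩ := hd
            have hgQ : g ∈ Q := (hQ.mem_or_mem hf0Q).resolve_left hyQ
            apply ih g hgQ
            intro hg
            apply hN
            rw [pow_succ, mul_comm]
            exact mul_dvd_mul_left y hg
          · exact ⟨f0, hf0Q, hd⟩
      have hexv : ∃ v : ℕ, ∃ f ∈ Q, ¬ y ∣ f ∧ ∃ u : R, IsUnit u ∧ y ∣ f - x ^ v * u := by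
        obtain ⟨f, hfQ, hf⟩ := hex
        rcases h1 f with h | ⟨v, u, hu, h⟩
        · exact absurd h hf
        · exact ⟨v, f, hfQ, hf, u, hu, h⟩
      obtain ⟨f, hfQ, hyf, u, hu, hfu⟩ := Nat.find_spec hexv
      set v := Nat.find hexv with hv
      have hmin : ∀ g ∈ Q, ¬ y ∣ g → ∀ v' : ℕ, ∀ u' : R, IsUnit u' → y ∣ g - x ^ v' * u' →
          v ≤ v' := by
        intro g hg hyg v' u' hu' hgu'
        exact Nat.find_min' hexv ⟨g, hg, hyg, u', hu', hgu'⟩
      have hQf : Q = Ideal.span {f} := by
        apply le_antisymm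
        · intro g hg
          rw [Ideal.mem_span_singleton]
          apply h2 g f hyf
          intro N
          induction N with
          | zero => exact ⟨0, by simp⟩
          | succ N ih =>
            obtain ⟨a, w, hw⟩ := ih
            have hyw : y ^ N * w ∈ Q := by
              rw [← hw]
              exact Q.sub_mem hg (Q.mul_mem_right _ hfQ)
            have hwQ : w ∈ Q := by
              rcases hQ.mem_or_mem hyw with h | h
              · exact absurd (hQ.mem_of_pow_mem _ h) hyQ
              · exact h
            have hb : ∃ b, y ∣ w - f * b := by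
              rcases h1 w with h | ⟨v', u', hu', h⟩
              · exact ⟨0, by simpa using h⟩
              · by_cases hyw' : y ∣ w
                · exact ⟨0, by simpa using hyw'⟩
                · have hvv : v ≤ v' := hmin w hwQ hyw' v' u' hu' h
                  obtain ⟨ui, hui⟩ := hu.exists_right_inv
                  obtain ⟨d, hd⟩ := Nat.exists_eq_add_of_le hvv
                  refine ⟨x ^ d * u' * ui, ?_⟩
                  obtain ⟨c, hc⟩ := h
                  obtain ⟨e, he⟩ := hfu
                  refine ⟨c - e * (x ^ d * u' * ui), ?_⟩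
                  have h7 : w = y * c + x ^ v' * u' := by rw [← hc]; ring
                  have h8 : f = y * e + x ^ v * u := by rw [← he]; ring
                  rw [h7, h8, hd, pow_add]
                  have : x ^ v * u * (x ^ d * u' * ui) = x ^ v * x ^ d * u' * (u * ui) := by ring
                  calc y * c + x ^ v * x ^ d * u' - (y * e + x ^ v * u) * (x ^ d * u' * ui)
                      = y * c + x ^ v * x ^ d * u' - y * e * (x ^ d * u' * ui)
                          - x ^ v * u * (x ^ d * u' * ui) := by ring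
                    _ = y * c + x ^ v * x ^ d * u' - y * e * (x ^ d * u' * ui)
                          - x ^ v * x ^ d * u' * (u * ui) := by rw [this]
                    _ = y * (c - e * (x ^ d * u' * ui)) := by rw [hui]; ring
            obtain ⟨b, c, hc⟩ := hb
            refine ⟨a + y ^ N * b, c, ?_⟩
            calc g - f * (a + y ^ N * b) = (g - f * a) - y ^ N * (f * b) := by ring
              _ = y ^ N * w - y ^ N * (f * b) := by rw [hw]
              _ = y ^ N * (w - f * b) := by ring
              _ = y ^ (N + 1) * c := by rw [hc]; ring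
        · rw [Ideal.span_le]
          intro z hz
          rw [Set.mem_singleton_iff.mp hz]
          exact hfQ
      rw [hQf]
      exact ⟨{f}, by simp⟩

end

/-- Criterion for a local domain to be a Noetherian ring of dimension two with maximal ideal
generated by `x` and `y`. -/
theorem FSDim.main (x y : R) (hy : Prime y) (hx : ¬ IsUnit x) (hxy : ∀ n, ¬ y ∣ x ^ n)
    (h1 : ∀ f : R, y ∣ f ∨ ∃ v : ℕ, ∃ u : R, IsUnit u ∧ y ∣ f - x ^ v * u)
    (h2 : ∀ f g : R, ¬ y ∣ g → (∀ N : ℕ, ∃ a, y ^ N ∣ f - g * a) → g ∣ f)
    (h3 : ∀ f : R, f ≠ 0 → ∃ N : ℕ, ¬ y ^ N ∣ f) :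
    IsNoetherianRing R ∧ Ideal.span ({x, y} : Set R) = IsLocalRing.maximalIdeal R ∧
      ringKrullDim R = 2 := by
  have hN : IsNoetherianRing R :=
    IsNoetherianRing.of_prime fun Q hQ => FSDim.fg_of_prime hy hx h1 h2 h3 Q hQ
  have hspan := FSDim.span_eq hy hx h1
  refine ⟨hN, hspan, le_antisymm ?_ ?_⟩
  · refine (ringKrullDim_le_spanFinrank_maximalIdeal R).trans ?_
    rw [← hspan]
    have h := Submodule.spanFinrank_span_le_ncard_of_finite (R := R) (s := ({x, y} : Set R))
      (Set.toFinite _)
    have h2' : (Ideal.span ({x, y} : Set R)).spanFinrank ≤ 2 :=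
      h.trans ((Set.ncard_insert_le x {y}).trans (by simp))
    exact_mod_cast h2'
  · -- the chain of primes `0 < (y) < m`
    have p1 : (Ideal.span {y} : Ideal R).IsPrime := (Ideal.span_singleton_prime hy.ne_zero).2 hy
    let P0 : PrimeSpectrum R := ⟨⊥, Ideal.isPrime_bot⟩
    let P1 : PrimeSpectrum R := ⟨Ideal.span {y}, p1⟩
    let P2 : PrimeSpectrum R := ⟨IsLocalRing.maximalIdeal R, inferInstance⟩
    have h01 : P0 < P1 := by
      refine lt_of_le_of_ne ?_ ?_
      · show (⊥ : Ideal R) ≤ Ideal.span {y}
        exact bot_le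
      · intro h
        have h' : (⊥ : Ideal R) = Ideal.span {y} := congrArg PrimeSpectrum.asIdeal h
        exact hy.ne_zero (Ideal.span_singleton_eq_bot.mp h'.symm)
    have h12 : P1 < P2 := by
      refine lt_of_le_of_ne ?_ ?_
      · show Ideal.span {y} ≤ IsLocalRing.maximalIdeal R
        rw [← hspan]
        exact Ideal.span_mono (by simp)
      · intro h
        have h' : Ideal.span {y} = IsLocalRing.maximalIdeal R := congrArg PrimeSpectrum.asIdeal h
        have hxm : x ∈ IsLocalRing.maximalIdeal R := hx
        rw [← h', Ideal.mem_span_singleton] at hxm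
        exact hxy 1 (by simpa using hxm)
    let s : LTSeries (PrimeSpectrum R) :=
      ((RelSeries.singleton _ P0).snoc P1 (by simpa using! h01)).snoc P2 (by simpa using! h12)
    have hs : s.length = 2 := by simp [s]
    have := Order.LTSeries.length_le_krullDim s
    rw [hs] at this
    exact_mod_cast this

end Pool.Agent.Lib_helper7
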