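import Pool.Agent.Lib_helper70.FSTheta

set_option autoImplicit false

/-!
Step B for `MP_a0fd22_al`: once the multiples of the curves `gg (n+2)` are killed for large `n`,
all multiples of all curves are killed.
-/

namespace Pool.Agent.Lib_helper7.FSStepB

open MvPowerSeries Pool.Agent.Lib_helper70.FS

section

variable {R : Subring PS} (psi : R →+ R)

/-- `psi f` has no constant term -/
def Z (f : PS) : Prop := ∀ h : f ∈ R, constantCoeff (psi ⟨f, h⟩ : PS) = 0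

lemma Z_add {f g : PS} (hg' : g ∈ R) (hf : Z psi f) (hg : Z psi g) : Z psi (f + g) := by
  intro h
  have hf' : f ∈ R := by
    have := R.sub_mem h hg'
    rwa [add_sub_cancel_right] at this
  have e : (⟨f + g, h⟩ : R) = ⟨f, hf'⟩ + ⟨g, hg'⟩ := rfl
  rw [e, map_add, Subring.coe_add, map_add, hf hf', hg hg', add_zero]

lemma pow_char (a b : PS) (s : ℕ) : (a + b) ^ (2 ^ s) = a ^ (2 ^ s) + b ^ (2 ^ s) :=
  add_pow_char_pow a b 2 s

lemma rec_pow (n s : ℕ) :
    gg n ^ (2 ^ s) = C ((tt n)⁻¹ ^ (2 ^ s)) * gg (n + 2) ^ (2 ^ s) +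
      C ((tt n)⁻¹ ^ (2 ^ s)) * gg (n + 1) ^ (2 ^ (s + 1)) := by
  have h1 : gg n = C (tt n)⁻¹ * gg (n + 2) + C (tt n)⁻¹ * gg (n + 1) ^ 2 := by
    rw [gg_rec]
    linear_combination (-gg n) * C_inv_mul_C (tt_ne n) -
      (C (tt n)⁻¹ : PS) * add_self_PS (gg (n + 1) ^ 2)
  conv_lhs => rw [h1]
  rw [pow_char, mul_pow, mul_pow, ← map_pow, ← pow_mul, pow_succ' 2 s]

theorem stepB' (hR : ∀ n, PN n ≤ R) (e : ℕ)
    (hpsi : ∀ r x : R, psi (r ^ (2 ^ e) * x) = r * psi x) (N0 : ℕ)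
    (hkill : ∀ n ≥ N0, ∀ f ∈ PN (n + 1), Z psi (gg (n + 2) * f)) (j : ℕ) (hj : j ≤ e) :
    ∀ n, ∀ f ∈ Pol ⊤, Z psi (f * gg n ^ (2 ^ (e - j))) := by
  induction j with
  | zero =>
    intro n f hf h
    obtain ⟨l, hl⟩ := exists_PN hf
    have hfR : f ∈ R := hR l hl
    have hgR : gg n ∈ R := hR n (gg_mem' n)
    have e1 : (⟨f * gg n ^ (2 ^ (e - 0)), h⟩ : R) = ⟨gg n, hgR⟩ ^ (2 ^ e) * ⟨f, hfR⟩ := by
      apply Subtype.ext
      change f * gg n ^ (2 ^ (e - 0)) = gg n ^ (2 ^ e) * f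
      rw [Nat.sub_zero, mul_comm]
    rw [e1, hpsi, Subring.coe_mul, map_mul, constantCoeff_gg, zero_mul]
  | succ j ih =>
    have ih := ih (by omega)
    have hs : e - j = (e - (j + 1)) + 1 := by omega
    rw [hs] at ih
    set s := e - (j + 1) with hs'
    have key : ∀ i n l, l + 1 ≤ n + 2 * i → N0 + 2 ≤ n + 2 * i → ∀ f ∈ PN l,
        Z psi (f * gg n ^ (2 ^ s)) := by
      intro i
      induction i with
      | zero =>
        intro n l h1 h2 f hf
        obtain ⟨m, rfl⟩ : ∃ m, n = m + 2 := ⟨n - 2, by omega⟩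
        have hpos : 0 < 2 ^ s := by positivity
        obtain ⟨r, hr⟩ : ∃ r, 2 ^ s = r + 1 := ⟨2 ^ s - 1, by omega⟩
        have := hkill m (by omega) (f * gg (m + 2) ^ r)
          ((PN (m + 1)).mul_mem (PN_mono (by omega) hf) ((PN (m + 1)).pow_mem (gg_mem m) r))
        have e1 : f * gg (m + 2) ^ (2 ^ s) = gg (m + 2) * (f * gg (m + 2) ^ r) := by
          rw [hr]; ring
        rw [e1]
        exact this
      | succ i ihi =>
        intro n l h1 h2 f hf
        have hbeta : f * C ((tt n)⁻¹ ^ (2 ^ s)) ∈ PN (max l (n + 1)) := by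
          refine (PN _).mul_mem (PN_mono (le_max_left _ _) hf) ?_
          refine PN_mono (le_max_right _ _) (C_mem_Pol ?_)
          exact (KK _).pow_mem ((KK _).inv_mem (tt_mem (by omega))) _
        have e1 : f * gg n ^ (2 ^ s) = (f * C ((tt n)⁻¹ ^ (2 ^ s))) * gg (n + 2) ^ (2 ^ s) +
            (f * C ((tt n)⁻¹ ^ (2 ^ s))) * gg (n + 1) ^ (2 ^ (s + 1)) := by
          rw [rec_pow n s]; ring
        rw [e1]
        refine Z_add psi ?_ (ihi (n + 2) (max l (n + 1)) ?_ ?_ _ hbeta) ?_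
        · exact R.mul_mem (hR _ hbeta) (R.pow_mem (hR _ (gg_mem' _)) _)
        · have := max_le (show l ≤ n + 2 + 2 * i - 1 by omega)
            (show n + 1 ≤ n + 2 + 2 * i - 1 by omega)
          omega
        · omega
        · exact ih (n + 1) _ (PN_le_top _ hbeta)
    intro n f hf
    obtain ⟨l, hl⟩ := exists_PN hf
    exact key (l + 1 + N0 + 2) n l (by omega) (by omega) f hl

end

theorem stepB (R : Subring PS) (hR : ∀ n, PN n ≤ R) (e : ℕ) (psi : R →+ R)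
    (hpsi : ∀ r x : R, psi (r ^ (2 ^ e) * x) = r * psi x) (N0 : ℕ)
    (hkill : ∀ n ≥ N0, ∀ f (_ : f ∈ PN (n + 1)) (hg : gg (n + 2) * f ∈ R),
      constantCoeff (psi ⟨gg (n + 2) * f, hg⟩ : PS) = 0) :
    ∀ (n) (f) (_ : f ∈ Pol ⊤) (hg : gg n * f ∈ R),
      constantCoeff (psi ⟨gg n * f, hg⟩ : PS) = 0 := by
  intro n f hf hg
  have := stepB' psi hR e hpsi N0 (fun n hn f hf => hkill n hn f hf) e le_rfl n f hf
  rw [Nat.sub_self, pow_zero, pow_one, mul_comm] at this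
  exact this hg

end Pool.Agent.Lib_helper7.FSStepB
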